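import Pool.Agent.Helper58.SF.StA

/-! # Project SF, module NIS: levels have no isolated points -/

set_option autoImplicit false

namespace Pool.Agent.Helper29.SF

open Set Topology Pool.Agent.Helper13.TR Pool.Agent.Helper58.SF

theorem hNIS (hBEX : StBEX) (hFLW : StFLW) (hJOI : StJOI) (hSDA : StSDA) (_hMON : StMON) :
    StNIS := by
  intro P _ r R dg hP x O hO hx
  have hmet := hP.met
  let _ : MetricSpace P := TopologicalSpace.metrizableSpaceMetric P
  have hF : Flow P r R := hP.box.toFlow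
  have hFl := hFLW P r R hF
  have hxO : x ∈ O := by
    have : x ∈ O ∩ {y | r y = r x} := by rw [hx]; exact mem_singleton x
    exact this.1
  obtain ⟨t, ht⟩ : ∃ t, t = r x := ⟨_, rfl⟩
  have ht0 : 0 < t := by rw [ht]; exact hF.pos x
  have ht1 : t < 1 := by rw [ht]; exact hF.lt x
  obtain ⟨A, hA⟩ : ∃ A : Set P, A = {y | t < r y ∧ R t y = x} := ⟨_, rfl⟩
  have hAo : IsOpen A := by
    have h1 : A = {y | t < r y} ∩ (R t) ⁻¹' O := by
      ext y
      rw [hA]
      constructor
      · rintro ⟨h1, h2⟩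
        refine ⟨h1, ?_⟩
        change R t y ∈ O
        rw [h2]
        exact hxO
      · rintro ⟨h1, h2⟩
        refine ⟨h1, ?_⟩
        have h3 : R t y ∈ O ∩ {y | r y = r x} := by
          refine ⟨h2, ?_⟩
          change r (R t y) = r x
          rw [hF.rR t y ht0, min_eq_left (le_of_lt h1), ht]
        rw [hx] at h3
        exact h3
    rw [h1]
    exact (isOpen_lt continuous_const hF.rc).inter (hO.preimage (hFl.1 t ht0))
  have hUc : IsClosed (Up r R x) := (hFl.2.2.1 x).1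
  have hcov : ∀ y : P, y ≠ x → y ∈ A ∪ (Up r R x)ᶜ := by
    intro y hy
    by_cases h : y ∈ Up r R x
    · left
      rw [hA]
      obtain ⟨h1, h2⟩ := h
      rw [← ht] at h1 h2
      rcases lt_or_eq_of_le h1 with h3 | h3
      · exact ⟨h3, h2⟩
      · exfalso
        apply hy
        rw [hF.Rid t y h3.ge] at h2
        exact h2
    · right
      exact h
  have hdis : A ∩ (Up r R x)ᶜ = ∅ := by
    ext y
    constructor
    · rintro ⟨h1, h2⟩
      exfalso
      apply h2
      rw [hA] at h1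
      refine ⟨?_, ?_⟩
      · rw [← ht]; exact h1.1.le
      · rw [← ht]; exact h1.2
    · intro h
      exact absurd h (notMem_empty y)
  -- paths in the complement of x do not leave A
  have hpath1 : ∀ a b : P, JoinedIn ({x}ᶜ : Set P) a b → a ∈ A → b ∈ A := by
    intro a b hab ha
    obtain ⟨γ, hγ⟩ := hab
    have hpre : IsPreconnected (range γ) := isPreconnected_range γ.continuous
    have hsub : range γ ⊆ A ∪ (Up r R x)ᶜ := by
      rintro _ ⟨s, rfl⟩
      exact hcov _ (hγ s)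
    have h1 : (range γ ∩ A).Nonempty := ⟨a, ⟨0, γ.source⟩, ha⟩
    have h2 : Disjoint A (Up r R x)ᶜ := Set.disjoint_iff_inter_eq_empty.2 hdis
    have h3 : range γ ⊆ A :=
      hpre.subset_left_of_subset_union hAo hUc.isOpen_compl h2 hsub h1
    exact h3 ⟨1, γ.target⟩
  have hpath : ∀ a b : P, JoinedIn ({x}ᶜ : Set P) a b → (a ∈ A ↔ b ∈ A) := fun a b hab =>
    ⟨hpath1 a b hab, hpath1 b a hab.symm⟩
  -- the two points
  obtain ⟨a, haU, har⟩ := (hBEX P r R dg hP).1 x ((t + 1) / 2) (by rw [← ht]; linarith)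
    (by linarith)
  obtain ⟨haU1, haU2⟩ := haU
  rw [← ht] at haU1 haU2
  have haA : a ∈ A := by
    rw [hA]
    exact ⟨by rw [har]; linarith, haU2⟩
  obtain ⟨b, hb⟩ : ∃ b, b = R (t / 2) a := ⟨_, rfl⟩
  have hbr : r b = t / 2 := by
    rw [hb, hF.rR _ _ (by linarith), har, min_eq_left (by linarith)]
  have hbA : b ∉ A := by
    rw [hA]
    rintro ⟨h1, -⟩
    rw [hbr] at h1
    linarith
  have hax : a ≠ x := by
    intro h
    rw [h, ← ht] at har
    linarith
  have hbx : b ≠ x := by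
    intro h
    rw [h, ← ht] at hbr
    linarith
  have hjoin : JoinedIn (univ : Set P) a b := by
    rw [hb]
    exact (hFl.2.2.2.1 (t / 2) a (by linarith)).mono (subset_univ _)
  obtain ⟨e, -, hbe⟩ := (hJOI P univ).1 a b hjoin
  have hJx := hJOI P ({x}ᶜ : Set P)
  have hcyc : e ∈ Cyc ({x} : Set P) 1 := by
    change bd 0 e ∈ cin ({x}ᶜ : Set P) 0
    rw [hbe]
    exact Submodule.sub_mem _ (hJx.2.2.2.2 b hbx) (hJx.2.2.2.2 a hax)
  have hnul : e ∈ Nul ({x} : Set P) 1 := hP.hm.low x 1 (by norm_num) hcyc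
  obtain ⟨ρ, hρ, β', ⟨β, rfl⟩, hsum⟩ := Submodule.mem_sup.1 hnul
  have hbρ : bd 0 ρ = bd 0 e := by
    rw [← hsum, map_add, (hSDA P).1 0 β, add_zero]
  have h0 := hJx.2.1 A hpath ρ hρ
  rw [hbρ, hbe, map_sub, (hJx.2.2.1 A b).2 hbA, (hJx.2.2.1 A a).1 haA] at h0
  norm_num at h0

end Pool.Agent.Helper29.SF
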